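import Mathlib

namespace Pool.Agent.Results.MP_70096d_gt.AllReadings

open Set Topology

universe u v

/-- The Scott topology of a poset: a set is open iff it is an upper set and every directed
(nonempty) subset whose supremum lies in it meets it. -/
@[reducible] def scott (P : Type*) [PartialOrder P] : TopologicalSpace P where
  IsOpen U := IsUpperSet U ∧ ∀ D : Set P, D.Nonempty → DirectedOn (· ≤ ·) D →
    ∀ s, IsLUB D s → s ∈ U → (D ∩ U).Nonempty
  isOpen_univ := ⟨isUpperSet_univ, fun D hD _ _ _ _ => by simpa using hD⟩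
  isOpen_inter := by
    rintro U V ⟨hU, hU'⟩ ⟨hV, hV'⟩
    refine ⟨hU.inter hV, fun D hD hdir s hs hsUV => ?_⟩
    obtain ⟨a, ha, haU⟩ := hU' D hD hdir s hs hsUV.1
    obtain ⟨b, hb, hbV⟩ := hV' D hD hdir s hs hsUV.2
    obtain ⟨c, hc, hac, hbc⟩ := hdir a ha b hb
    exact ⟨c, hc, hU hac haU, hV hbc hbV⟩
  isOpen_sUnion := by
    intro S hS
    refine ⟨isUpperSet_sUnion fun U hU => (hS U hU).1, fun D hD hdir s hs hsU => ?_⟩
    obtain ⟨U, hU, hsU⟩ := hsU
    obtain ⟨a, ha, haU⟩ := (hS U hU).2 D hD hdir s hs hsU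
    exact ⟨a, ha, U, hU, haU⟩

/-- A dcpo: every (nonempty) directed subset has a supremum. -/
def IsDcpo (P : Type*) [PartialOrder P] : Prop :=
  ∀ D : Set P, D.Nonempty → DirectedOn (· ≤ ·) D → ∃ s, IsLUB D s

/-- A set is saturated if it is an intersection of open sets. -/
def Saturated {X : Type*} (τ : TopologicalSpace X) (K : Set X) : Prop :=
  ∃ S : Set (Set X), (∀ U ∈ S, IsOpen[τ] U) ∧ K = ⋂₀ S

/-- A `T₀` space is well-filtered if, whenever a filtered family of compact saturated sets has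
its intersection contained in an open set `U`, some member of the family is contained in `U`. -/
def WellFiltered {X : Type*} (τ : TopologicalSpace X) : Prop :=
  @T0Space X τ ∧ ∀ F : Set (Set X), F.Nonempty →
    (∀ K ∈ F, ∀ L ∈ F, ∃ M ∈ F, M ⊆ K ∧ M ⊆ L) →
    (∀ K ∈ F, @IsCompact X τ K ∧ Saturated τ K) →
    ∀ U : Set X, IsOpen[τ] U → ⋂₀ F ⊆ U → ∃ K ∈ F, K ⊆ U

/-- `P` is Scott well-filtered: its Scott space is well-filtered. -/
def ScottWellFiltered (P : Type*) [PartialOrder P] : Prop := WellFiltered (scott P)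

/-- A topology on a poset is compatible with the order if `cl {x} = ↓x` for every `x`. -/
def Compatible {P : Type*} [PartialOrder P] (τ : TopologicalSpace P) : Prop :=
  ∀ x : P, @closure P τ {x} = Iic x

/-- A well-filtered dcpo: a dcpo admitting a compatible well-filtered topology. -/
def IsWellFilteredDcpo (P : Type*) [PartialOrder P] : Prop :=
  IsDcpo P ∧ ∃ τ : TopologicalSpace P, Compatible τ ∧ WellFiltered τ

section scottFacts

variable {P : Type*} [PartialOrder P]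

theorem scott_isOpen_iff {U : Set P} : IsOpen[scott P] U ↔ IsUpperSet U ∧
    ∀ D : Set P, D.Nonempty → DirectedOn (· ≤ ·) D → ∀ s, IsLUB D s → s ∈ U → (D ∩ U).Nonempty :=
  Iff.rfl

theorem isClosed_Iic_scott (x : P) : IsClosed[scott P] (Iic x) := by
  refine (@isOpen_compl_iff P (Iic x) (scott P)).mp ?_
  refine ⟨(isLowerSet_Iic x).compl, fun D _ _ s hs hsx => ?_⟩
  by_contra hcon
  apply hsx
  apply hs.2
  intro d hd
  by_contra hdx
  exact hcon ⟨d, hd, hdx⟩

theorem t0_scott : @T0Space P (scott P) := by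
  let _ := scott P
  rw [t0Space_iff_inseparable]
  intro x y hxy
  have h1 : x ≤ y := by
    have := (hxy.mem_closed_iff (isClosed_Iic_scott y)).mpr (by simp)
    exact this
  have h2 : y ≤ x := by
    have := (hxy.mem_closed_iff (isClosed_Iic_scott x)).mp (by simp)
    exact this
  exact le_antisymm h1 h2

theorem saturated_scott_of_isUpperSet {K : Set P} (hK : IsUpperSet K) : Saturated (scott P) K := by
  refine ⟨{V | ∃ x, x ∉ K ∧ V = (Iic x)ᶜ}, ?_, ?_⟩
  · rintro _ ⟨x, _, rfl⟩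
    exact (isClosed_Iic_scott x).isOpen_compl
  · ext y
    simp only [mem_sInter, mem_ofPred_eq]
    constructor
    · rintro hy _ ⟨x, hx, rfl⟩ hyx
      exact hx (hK hyx hy)
    · intro h
      by_contra hy
      exact h _ ⟨y, hy, rfl⟩ (le_refl y)

end scottFacts

/-- The closure of the image of a minimal set is the closure of a point. -/
theorem point_exists {Z W : Type*} [TopologicalSpace Z] [TopologicalSpace W] [PartialOrder W]
    (hWu : ∀ U : Set W, IsOpen U → IsUpperSet U) (hWI : ∀ x : W, IsClosed (Iic x))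
    (hW : WellFiltered (inferInstance : TopologicalSpace W))
    (hWs : ∀ K : Set W, IsUpperSet K → Saturated (inferInstance : TopologicalSpace W) K)
    (h : Z → W) (hh : Continuous h) (A : Set Z) (hAc : IsClosed A) (F : Set (Set Z))
    (hne : F.Nonempty) (hfil : ∀ K ∈ F, ∀ L ∈ F, ∃ M ∈ F, M ⊆ K ∧ M ⊆ L)
    (hK : ∀ K ∈ F, IsCompact K) (hAK : ∀ K ∈ F, (A ∩ K).Nonempty)
    (hmin : ∀ B : Set Z, IsClosed B → (∀ K ∈ F, (A ∩ B ∩ K).Nonempty) → A ⊆ B) :
    ∃ p : W, p ∈ closure (h '' A) ∧ ∀ z ∈ A, h z ≤ p := by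
  have hex : ∃ p, p ∈ closure (h '' A) ∧ ∀ K ∈ F, ∃ z ∈ A ∩ K, h z ≤ p := by
    by_contra hno
    push Not at hno
    obtain ⟨L, ⟨K, hKF, rfl⟩, hL⟩ := hW.2
      {L | ∃ K ∈ F, L = {w | ∃ z ∈ A ∩ K, h z ≤ w}}
      (by
        obtain ⟨K, hK⟩ := hne
        exact ⟨_, K, hK, rfl⟩)
      (by
        rintro _ ⟨K, hKF, rfl⟩ _ ⟨L, hLF, rfl⟩
        obtain ⟨M, hM, hMK, hML⟩ := hfil K hKF L hLF
        exact ⟨_, ⟨M, hM, rfl⟩, fun w ⟨z, hz, hw⟩ => ⟨z, ⟨hz.1, hMK hz.2⟩, hw⟩,
          fun w ⟨z, hz, hw⟩ => ⟨z, ⟨hz.1, hML hz.2⟩, hw⟩⟩)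
      (by
        rintro _ ⟨K, hKF, rfl⟩
        constructor
        · have hc : IsCompact (h '' (A ∩ K)) := by
            rw [inter_comm]
            exact ((hK K hKF).inter_right hAc).image hh
          rw [isCompact_iff_finite_subcover] at hc ⊢
          intro ι V hV hcov
          obtain ⟨t, ht⟩ := hc V hV (by
            rintro _ ⟨z, hz, rfl⟩
            exact hcov ⟨z, hz, le_rfl⟩)
          refine ⟨t, ?_⟩
          rintro w ⟨z, hz, hzw⟩
          have := ht ⟨z, hz, rfl⟩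
          rw [mem_iUnion₂] at this ⊢
          obtain ⟨i, hi, hzi⟩ := this
          exact ⟨i, hi, hWu _ (hV i) hzw hzi⟩
        · apply hWs
          rintro a b hab ⟨z, hz, hza⟩
          exact ⟨z, hz, hza.trans hab⟩)
      (closure (h '' A))ᶜ isClosed_closure.isOpen_compl
      (by
        intro w hw hwc
        obtain ⟨K, hKF, hno'⟩ := hno w hwc
        obtain ⟨z, hz, hzw⟩ := hw _ ⟨K, hKF, rfl⟩
        exact hno' z hz hzw)
    obtain ⟨z, hz⟩ := hAK K hKF
    exact hL ⟨z, hz, le_rfl⟩ (subset_closure ⟨z, hz.1, rfl⟩)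
  obtain ⟨p, hp, hpK⟩ := hex
  refine ⟨p, hp, ?_⟩
  have := hmin (h ⁻¹' Iic p) ((hWI p).preimage hh) (by
    intro K hKF
    obtain ⟨z, hz, hzp⟩ := hpK K hKF
    exact ⟨z, ⟨hz.1, hzp⟩, hz.2⟩)
  exact fun z hz => this hz

/-- The core of the argument, for three spaces. -/
theorem core {X Y Z : Type*} [TopologicalSpace X] [TopologicalSpace Y] [TopologicalSpace Z]
    [PartialOrder X] [PartialOrder Y]
    (hXo : ∀ U : Set X, IsOpen U ↔ IsUpperSet U ∧ ∀ D : Set X, D.Nonempty →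
      DirectedOn (· ≤ ·) D → ∀ s, IsLUB D s → s ∈ U → (D ∩ U).Nonempty)
    (hYo : ∀ U : Set Y, IsOpen U → IsUpperSet U)
    (hXI : ∀ x : X, IsClosed (Iic x)) (hYI : ∀ y : Y, IsClosed (Iic y))
    (hX : WellFiltered (inferInstance : TopologicalSpace X))
    (hY : WellFiltered (inferInstance : TopologicalSpace Y))
    (hXs : ∀ K : Set X, IsUpperSet K → Saturated (inferInstance : TopologicalSpace X) K)
    (hYs : ∀ K : Set Y, IsUpperSet K → Saturated (inferInstance : TopologicalSpace Y) K)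
    (f : Z → X) (g : Z → Y) (mk : X → Y → Z) (hf : Continuous f) (hg : Continuous g)
    (hmf : ∀ x y, f (mk x y) = x) (hmg : ∀ x y, g (mk x y) = y) (hmk : ∀ z, mk (f z) (g z) = z)
    (hs1 : ∀ y, Continuous fun x => mk x y) (hs2 : ∀ x, Continuous (mk x))
    (F : Set (Set Z)) (hne : F.Nonempty) (hfil : ∀ K ∈ F, ∀ L ∈ F, ∃ M ∈ F, M ⊆ K ∧ M ⊆ L)
    (hK : ∀ K ∈ F, IsCompact K ∧ Saturated (inferInstance : TopologicalSpace Z) K)
    (U : Set Z) (hU : IsOpen U) (hFU : ⋂₀ F ⊆ U) : ∃ K ∈ F, K ⊆ U := by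
  classical
  by_contra hcon
  push Not at hcon
  -- a minimal closed set meeting all members of the family
  obtain ⟨A, hAU, hAmin⟩ : ∃ A : Set Z, A ⊆ Uᶜ ∧
      Minimal (fun B : Set Z => IsClosed B ∧ ∀ K ∈ F, (B ∩ K).Nonempty) A := by
    have hz := zorn_superset_nonempty {B : Set Z | IsClosed B ∧ ∀ K ∈ F, (B ∩ K).Nonempty}
      (by
        intro c hc hchain hcne
        refine ⟨⋂₀ c, ⟨isClosed_sInter fun B hB => (hc hB).1, fun K hKF => ?_⟩,
          fun B hB => sInter_subset_of_mem hB⟩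
        by_contra hempty
        rw [not_nonempty_iff_eq_empty, inter_comm] at hempty
        have : Nonempty c := hcne.to_subtype
        obtain ⟨B, hB⟩ := (hK K hKF).1.elim_directed_family_closed (fun B : c => (B : Set Z))
          (fun B => (hc B.2).1) (by rw [← sInter_eq_iInter]; exact hempty) (by
            intro B C
            rcases hchain.total B.2 C.2 with h | h
            · exact ⟨B, subset_rfl, h⟩
            · exact ⟨C, h, subset_rfl⟩)
        have := (hc B.2).2 K hKF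
        rw [inter_comm, hB] at this
        exact not_nonempty_empty this) Uᶜ
      ⟨hU.isClosed_compl, fun K hKF => by
        obtain ⟨z, hz, hzU⟩ := not_subset.mp (hcon K hKF)
        exact ⟨z, hzU, hz⟩⟩
    obtain ⟨A, hAU, hA⟩ := hz
    exact ⟨A, hAU, hA⟩
  have hAc : IsClosed A := hAmin.prop.1
  have hAK : ∀ K ∈ F, (A ∩ K).Nonempty := hAmin.prop.2
  -- minimality in usable form
  have hmin : ∀ B : Set Z, IsClosed B → (∀ K ∈ F, (A ∩ B ∩ K).Nonempty) → A ⊆ B := by
    intro B hB hBK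
    have := hAmin.le_of_le (y := A ∩ B) ⟨hAc.inter hB, hBK⟩ inter_subset_left
    exact this.trans inter_subset_right
  have hXu : ∀ U : Set X, IsOpen U → IsUpperSet U := fun U hU => ((hXo U).mp hU).1
  -- opens of Z are upper
  have hZu : ∀ V : Set Z, IsOpen V → ∀ z x y, z ∈ V → f z ≤ x → g z ≤ y → mk x y ∈ V := by
    intro V hV z x y hz hx hy
    have h1 : IsOpen {x | mk x (g z) ∈ V} := hV.preimage (hs1 (g z))
    have h2 : mk x (g z) ∈ V := hXu _ h1 hx (by simpa [hmk] using hz)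
    have h3 : IsOpen {y | mk x y ∈ V} := hV.preimage (hs2 x)
    exact hYo _ h3 hy h2
  have hKu : ∀ K ∈ F, ∀ z x y, z ∈ K → f z ≤ x → g z ≤ y → mk x y ∈ K := by
    intro K hKF z x y hz hx hy
    obtain ⟨S, hS, rfl⟩ := (hK K hKF).2
    intro V hV
    exact hZu V (hS V hV) z x y (hz V hV) hx hy
  obtain ⟨p, hpc, hp⟩ := point_exists hXu hXI hX hXs f hf A hAc F hne hfil
    (fun K hKF => (hK K hKF).1) hAK hmin
  obtain ⟨q, hqc, hq⟩ := point_exists hYo hYI hY hYs g hg A hAc F hne hfil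
    (fun K hKF => (hK K hKF).1) hAK hmin
  -- (p,q) is not in A
  have hpq : mk p q ∉ A := by
    intro hmem
    refine hAU hmem (hFU fun K hKF => ?_)
    obtain ⟨z, hzA, hzK⟩ := hAK K hKF
    exact hKu K hKF z p q hzK (hp z hzA) (hq z hzA)
  -- step 1
  obtain ⟨K0, hK0, h0⟩ : ∃ K0 ∈ F, ∀ z ∈ A ∩ K0, mk (f z) q ∉ A := by
    by_contra hno
    push Not at hno
    apply hpq
    have hB : IsClosed {x | mk x q ∈ A} := hAc.preimage (hs1 q)
    have hAB := hmin (f ⁻¹' {x | mk x q ∈ A}) (hB.preimage hf) (by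
      intro K hKF
      obtain ⟨z, hz, hzA⟩ := hno K hKF
      exact ⟨z, ⟨hz.1, hzA⟩, hz.2⟩)
    have : f '' A ⊆ {x | mk x q ∈ A} := by
      rintro _ ⟨z, hz, rfl⟩
      exact hAB hz
    exact closure_minimal this hB hpc
  -- step 2
  have h2 : ∀ x ∈ f '' (A ∩ K0), ∃ K ∈ F, ∀ z ∈ A ∩ K, mk x (g z) ∉ A := by
    rintro _ ⟨z0, hz0, rfl⟩
    by_contra hno
    push Not at hno
    apply h0 z0 hz0
    have hC : IsClosed {y | mk (f z0) y ∈ A} := hAc.preimage (hs2 (f z0))
    have hAC := hmin (g ⁻¹' {y | mk (f z0) y ∈ A}) (hC.preimage hg) (by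
      intro K hKF
      obtain ⟨z, hz, hzA⟩ := hno K hKF
      exact ⟨z, ⟨hz.1, hzA⟩, hz.2⟩)
    have : g '' A ⊆ {y | mk (f z0) y ∈ A} := by
      rintro _ ⟨z, hz, rfl⟩
      exact hAC hz
    exact closure_minimal this hC hqc
  -- step 3 : the sets O_K are open
  have hO : ∀ K ∈ F, IsOpen {x : X | ∀ z ∈ A ∩ K, mk x (g z) ∉ A} := by
    intro K hKF
    rw [hXo]
    constructor
    · intro x x' hxx' hx z hz hmem
      apply hx z hz
      have hB : IsClosed {x | mk x (g z) ∈ A} := hAc.preimage (hs1 (g z))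
      have := hXu _ hB.isOpen_compl
      by_contra hnot
      exact this hxx' hnot hmem
    · intro D hD hdir s hs hsO
      by_contra hno
      have hno' : ∀ d ∈ D, ∃ z ∈ A ∩ K, mk d (g z) ∈ A := by
        intro d hd
        by_contra hcon2
        push Not at hcon2
        exact hno ⟨d, hd, hcon2⟩
      have hN : IsCompact (g '' (A ∩ K)) := by
        rw [inter_comm]
        exact ((hK K hKF).1.inter_right hAc).image hg
      have hDne : Nonempty D := hD.to_subtype
      have hint : (g '' (A ∩ K) ∩ ⋂ d : D, {y | mk (d : X) y ∈ A}).Nonempty := by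
        by_contra hempty
        rw [not_nonempty_iff_eq_empty] at hempty
        obtain ⟨d, hd⟩ := hN.elim_directed_family_closed (fun d : D => {y | mk (d : X) y ∈ A})
          (fun d => hAc.preimage (hs2 d)) hempty (by
            intro d e
            obtain ⟨c, hc, hdc, hec⟩ := hdir d d.2 e e.2
            have key : ∀ d : X, d ≤ c → {y | mk c y ∈ A} ⊆ {y | mk d y ∈ A} := by
              intro d hdc y hy
              have hB : IsClosed {x | mk x y ∈ A} := hAc.preimage (hs1 y)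
              have := hXu _ hB.isOpen_compl
              by_contra hnot
              exact this hdc hnot hy
            exact ⟨⟨c, hc⟩, key d hdc, key e hec⟩)
        obtain ⟨z, hz, hzA⟩ := hno' d d.2
        have : g z ∈ g '' (A ∩ K) ∩ {y | mk (d : X) y ∈ A} := ⟨⟨z, hz, rfl⟩, hzA⟩
        rw [hd] at this
        exact this
      obtain ⟨y, ⟨z, hz, rfl⟩, hy⟩ := hint
      apply hsO z hz
      by_contra hnot
      have hB : IsClosed {x | mk x (g z) ∈ A} := hAc.preimage (hs1 (g z))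
      obtain ⟨d, hd, hdA⟩ := ((hXo _).mp hB.isOpen_compl).2 D hD hdir s hs hnot
      exact hdA (mem_iInter.mp hy ⟨d, hd⟩)
  -- step 4 : compactness
  have hM : IsCompact (f '' (A ∩ K0)) := by
    rw [inter_comm]
    exact ((hK K0 hK0).1.inter_right hAc).image hf
  have hFne : Nonempty F := hne.to_subtype
  obtain ⟨K1, hK1⟩ := hM.elim_directed_cover (fun K : F => {x : X | ∀ z ∈ A ∩ K, mk x (g z) ∉ A})
    (fun K => hO K K.2) (by
      intro x hx
      obtain ⟨K, hKF, hx'⟩ := h2 x hx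
      exact mem_iUnion.mpr ⟨⟨K, hKF⟩, hx'⟩) (by
      intro K L
      obtain ⟨M, hM, hMK, hML⟩ := hfil K K.2 L L.2
      exact ⟨⟨M, hM⟩, fun x hx z hz => hx z ⟨hz.1, hMK hz.2⟩,
        fun x hx z hz => hx z ⟨hz.1, hML hz.2⟩⟩)
  obtain ⟨M, hMF, hM0, hM1⟩ := hfil K0 hK0 K1 K1.2
  obtain ⟨z, hzA, hzM⟩ := hAK M hMF
  have := hK1 ⟨z, ⟨hzA, hM0 hzM⟩, rfl⟩ z ⟨hzA, hM1 hzM⟩
  rw [hmk] at this
  exact this hzA

/-- directed image under a monotone map -/
theorem directed_image {P Q : Type*} [PartialOrder P] [PartialOrder Q] (f : P → Q) (hf : Monotone f)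
    {D : Set P} (hD : DirectedOn (· ≤ ·) D) : DirectedOn (· ≤ ·) (f '' D) := by
  rintro _ ⟨a, ha, rfl⟩ _ ⟨b, hb, rfl⟩
  obtain ⟨c, hc, hac, hbc⟩ := hD a ha b hb
  exact ⟨_, ⟨c, hc, rfl⟩, hf hac, hf hbc⟩

/-- a monotone map preserving directed suprema is continuous for the Scott topologies -/
theorem scott_continuous {P Q : Type*} [PartialOrder P] [PartialOrder Q] (f : P → Q)
    (hf : Monotone f)
    (hs : ∀ D : Set P, D.Nonempty → DirectedOn (· ≤ ·) D → ∀ s, IsLUB D s → IsLUB (f '' D) (f s)) :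
    @Continuous P Q (scott P) (scott Q) f := by
  refine @Continuous.mk _ _ (scott P) (scott Q) _ fun U hU => ?_
  refine ⟨fun a b hab ha => hU.1 (hf hab) ha, fun D hD hdir s hsD hsU => ?_⟩
  obtain ⟨_, ⟨d, hd, rfl⟩, hdU⟩ := hU.2 (f '' D) (hD.image _) (directed_image f hf hdir) (f s)
    (hs D hD hdir s hsD) hsU
  exact ⟨d, hd, hdU⟩

theorem cont_fst {P Q : Type*} [PartialOrder P] [PartialOrder Q] :
    @Continuous (P × Q) P (scott (P × Q)) (scott P) Prod.fst :=
  scott_continuous _ (fun _ _ h => h.1) fun _ _ _ _ h => (isLUB_prod.mp h).1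

theorem cont_snd {P Q : Type*} [PartialOrder P] [PartialOrder Q] :
    @Continuous (P × Q) Q (scott (P × Q)) (scott Q) Prod.snd :=
  scott_continuous _ (fun _ _ h => h.2) fun _ _ _ _ h => (isLUB_prod.mp h).2

theorem cont_left {P Q : Type*} [PartialOrder P] [PartialOrder Q] (y : Q) :
    @Continuous P (P × Q) (scott P) (scott (P × Q)) (fun x => (x, y)) := by
  refine scott_continuous _ (fun _ _ h => ⟨h, le_rfl⟩) fun D hD _ s hs => ?_
  constructor
  · rintro _ ⟨a, ha, rfl⟩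
    exact ⟨hs.1 ha, le_rfl⟩
  · intro b hb
    obtain ⟨a0, ha0⟩ := hD
    exact ⟨hs.2 fun a ha => (hb ⟨a, ha, rfl⟩).1, (hb ⟨a0, ha0, rfl⟩).2⟩

theorem cont_right {P Q : Type*} [PartialOrder P] [PartialOrder Q] (x : P) :
    @Continuous Q (P × Q) (scott Q) (scott (P × Q)) (fun y => (x, y)) := by
  refine scott_continuous _ (fun _ _ h => ⟨le_rfl, h⟩) fun D hD _ s hs => ?_
  constructor
  · rintro _ ⟨a, ha, rfl⟩
    exact ⟨le_rfl, hs.1 ha⟩
  · intro b hb
    obtain ⟨a0, ha0⟩ := hD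
    exact ⟨(hb ⟨a0, ha0, rfl⟩).1, hs.2 fun a ha => (hb ⟨a, ha, rfl⟩).2⟩

/-- If `P` and `Q` are Scott well-filtered then the Scott space of the product dcpo `P × Q` is
well-filtered. -/
theorem scott_product (P Q : Type*) [PartialOrder P] [PartialOrder Q]
    (hP : ScottWellFiltered P) (hQ : ScottWellFiltered Q) : ScottWellFiltered (P × Q) := by
  refine ⟨t0_scott, fun F hne hfil hK U hU hFU => ?_⟩
  exact @core P Q (P × Q) (scott P) (scott Q) (scott (P × Q)) _ _ (fun U => Iff.rfl)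
    (fun U h => h.1) isClosed_Iic_scott isClosed_Iic_scott hP hQ
    (fun K h => saturated_scott_of_isUpperSet h) (fun K h => saturated_scott_of_isUpperSet h)
    Prod.fst Prod.snd Prod.mk cont_fst cont_snd (fun _ _ => rfl) (fun _ _ => rfl) (fun _ => rfl)
    cont_left cont_right F hne hfil hK U hU hFU

/-- A Scott-continuous retract of a Scott well-filtered poset is Scott well-filtered. -/
theorem scott_retract {P Z : Type*} [PartialOrder P] [PartialOrder Z] (hZ : ScottWellFiltered Z)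
    (i : P → Z) (r : Z → P) (hi : @Continuous P Z (scott P) (scott Z) i)
    (hr : @Continuous Z P (scott Z) (scott P) r) (hrm : Monotone r) (hri : ∀ x, r (i x) = x) :
    ScottWellFiltered P := by
  refine ⟨t0_scott, fun F hne hfil hK U hU hFU => ?_⟩
  have hKu : ∀ K ∈ F, IsUpperSet K := by
    intro K hKF
    obtain ⟨S, hS, rfl⟩ := (hK K hKF).2
    exact isUpperSet_sInter fun V hV => (hS V hV).1
  obtain ⟨L, ⟨K, hKF, rfl⟩, hL⟩ := hZ.2 {L | ∃ K ∈ F, L = {z | ∃ x ∈ K, i x ≤ z}}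
    (by
      obtain ⟨K, hK⟩ := hne
      exact ⟨_, K, hK, rfl⟩)
    (by
      rintro _ ⟨K, hKF, rfl⟩ _ ⟨L, hLF, rfl⟩
      obtain ⟨M, hM, hMK, hML⟩ := hfil K hKF L hLF
      exact ⟨_, ⟨M, hM, rfl⟩, fun w ⟨z, hz, hw⟩ => ⟨z, hMK hz, hw⟩,
        fun w ⟨z, hz, hw⟩ => ⟨z, hML hz, hw⟩⟩)
    (by
      rintro _ ⟨K, hKF, rfl⟩
      constructor
      · have hc : @IsCompact Z (scott Z) (i '' K) :=
          @IsCompact.image P Z (scott P) (scott Z) K i (hK K hKF).1 hi
        rw [@isCompact_iff_finite_subcover] at hc ⊢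
        intro ι V hV hcov
        obtain ⟨t, ht⟩ := hc V hV (by
          rintro _ ⟨z, hz, rfl⟩
          exact hcov ⟨z, hz, le_rfl⟩)
        refine ⟨t, ?_⟩
        rintro w ⟨z, hz, hzw⟩
        have := ht ⟨z, hz, rfl⟩
        rw [mem_iUnion₂] at this ⊢
        obtain ⟨j, hj, hzj⟩ := this
        exact ⟨j, hj, (hV j).1 hzw hzj⟩
      · apply saturated_scott_of_isUpperSet
        rintro a b hab ⟨z, hz, hza⟩
        exact ⟨z, hz, hza.trans hab⟩)
    (r ⁻¹' U) (@IsOpen.preimage Z P (scott Z) (scott P) r hr U hU)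
    (by
      intro z hz
      apply hFU
      intro K hKF
      obtain ⟨x, hx, hxz⟩ := hz _ ⟨K, hKF, rfl⟩
      have h1 := hrm hxz
      rw [hri] at h1
      exact hKu K hKF h1 hx)
  refine ⟨K, hKF, fun x hx => ?_⟩
  have h1 : i x ∈ r ⁻¹' U := hL ⟨x, hx, le_rfl⟩
  rw [mem_preimage, hri] at h1
  exact h1




/-- Johnstone's dcpo. -/
structure JP where
  /-- column -/
  c : ℕ
  /-- height -/
  h : WithTop ℕ

instance : PartialOrder JP where
  le a b := (a.c = b.c ∧ a.h ≤ b.h) ∨ (b.h = ⊤ ∧ a.h ≤ (b.c : WithTop ℕ))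
  le_refl a := Or.inl ⟨rfl, le_rfl⟩
  le_trans := by
    rintro ⟨a, x⟩ ⟨b, y⟩ ⟨c, z⟩ (⟨h1, h2⟩ | ⟨h1, h2⟩) (⟨h3, h4⟩ | ⟨h3, h4⟩)
    · exact Or.inl ⟨h1.trans h3, h2.trans h4⟩
    · exact Or.inr ⟨h3, h2.trans h4⟩
    · simp only at *
      subst h1 h3
      exact Or.inr ⟨top_le_iff.mp h4, h2⟩
    · simp only at *
      subst h1
      exact absurd h4 (by simp)
  le_antisymm := by
    rintro ⟨a, x⟩ ⟨b, y⟩ (⟨h1, h2⟩ | ⟨h1, h2⟩) (⟨h3, h4⟩ | ⟨h3, h4⟩)
    · simp only at *
      subst h1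
      rw [le_antisymm h2 h4]
    · simp only at *
      subst h3
      rw [top_le_iff.mp h2] at h4
      exact absurd h4 (by simp)
    · simp only at *
      subst h1
      rw [top_le_iff.mp h4] at h2
      exact absurd h2 (by simp)
    · simp only at *
      subst h1
      exact absurd h4 (by simp)

theorem JP.le_iff (a b : JP) : a ≤ b ↔ (a.c = b.c ∧ a.h ≤ b.h) ∨ (b.h = ⊤ ∧ a.h ≤ (b.c : WithTop ℕ)) :=
  Iff.rfl

/-- Johnstone's dcpo with a top element added. -/
abbrev PT := WithTop JP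

/-- the point `(m, k)` -/
def pt (m : ℕ) (k : WithTop ℕ) : PT := ((⟨m, k⟩ : JP) : WithTop JP)

theorem pt_le_pt {m n : ℕ} {k l : WithTop ℕ} :
    pt m k ≤ pt n l ↔ (m = n ∧ k ≤ l) ∨ (l = ⊤ ∧ k ≤ (n : WithTop ℕ)) := by
  unfold pt
  rw [WithTop.coe_le_coe, JP.le_iff]

theorem pt_ne_top (m : ℕ) (k : WithTop ℕ) : pt m k ≠ ⊤ := WithTop.coe_ne_top

theorem PT.cases (x : PT) : x = ⊤ ∨ (∃ m, x = pt m ⊤) ∨ ∃ m k : ℕ, x = pt m (k : WithTop ℕ) := by
  induction x using WithTop.recTopCoe with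
  | top => exact Or.inl rfl
  | coe x =>
    obtain ⟨m, k⟩ := x
    right
    induction k with
    | top => exact Or.inl ⟨m, rfl⟩
    | coe k => exact Or.inr ⟨m, k, rfl⟩

/-- every column has its top as supremum -/
theorem isLUB_column (m : ℕ) (D : Set PT) (hD : ∀ d ∈ D, ∃ k : ℕ, d = pt m k)
    (hunb : ∀ n : ℕ, ∃ k : ℕ, n ≤ k ∧ pt m k ∈ D) : IsLUB D (pt m ⊤) := by
  constructor
  · intro d hd
    obtain ⟨k, rfl⟩ := hD d hd
    exact pt_le_pt.mpr (Or.inl ⟨rfl, le_top⟩)
  · intro b hb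
    rcases PT.cases b with rfl | ⟨n, rfl⟩ | ⟨n, l, rfl⟩
    · exact le_top
    · obtain ⟨k, hk, hkD⟩ := hunb (n + 1)
      rcases pt_le_pt.mp (hb hkD) with ⟨h, _⟩ | ⟨_, h⟩
      · rw [h]
      · have : k ≤ n := by exact_mod_cast h
        omega
    · obtain ⟨k, hk, hkD⟩ := hunb (l + 1)
      rcases pt_le_pt.mp (hb hkD) with ⟨_, h⟩ | ⟨h, _⟩
      · have : k ≤ l := by exact_mod_cast h
        omega
      · exact absurd h (WithTop.coe_ne_top)

/-- classification of directed sets -/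
theorem directed_cases (D : Set PT) (hne : D.Nonempty) (hdir : DirectedOn (· ≤ ·) D) :
    (∃ s ∈ D, IsLUB D s) ∨ ∃ m, (∀ d ∈ D, ∃ k : ℕ, d = pt m k) ∧
      (∀ n : ℕ, ∃ k : ℕ, n ≤ k ∧ pt m k ∈ D) := by
  classical
  by_cases hmax : ∃ s ∈ D, ∀ d ∈ D, d ≤ s
  · obtain ⟨s, hs, hsD⟩ := hmax
    exact Or.inl ⟨s, hs, fun d hd => hsD d hd, fun b hb => hb hs⟩
  · right
    push Not at hmax
    -- no element is a top
    have hfin : ∀ d ∈ D, ∃ m k : ℕ, d = pt m k := by
      intro d hd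
      obtain ⟨e, he, hed⟩ := hmax d hd
      obtain ⟨f, hf, hdf, hef⟩ := hdir d hd e he
      rcases PT.cases d with rfl | ⟨m, rfl⟩ | h
      · exact absurd le_top hed
      · exfalso
        rcases PT.cases f with rfl | ⟨n, rfl⟩ | ⟨n, l, rfl⟩
        · obtain ⟨g, hg, hgt⟩ := hmax ⊤ hf
          exact hgt le_top
        · rcases pt_le_pt.mp hdf with ⟨h, _⟩ | ⟨_, h⟩
          · subst h; exact hed hef
          · exact absurd h (by simp)
        · rcases pt_le_pt.mp hdf with ⟨_, h⟩ | ⟨h, _⟩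
          · exact absurd h (by simp)
          · exact absurd h (WithTop.coe_ne_top)
      · exact h
    obtain ⟨d0, hd0⟩ := hne
    obtain ⟨m, k0, rfl⟩ := hfin d0 hd0
    have hcol : ∀ d ∈ D, ∃ k : ℕ, d = pt m k := by
      intro d hd
      obtain ⟨n, k, rfl⟩ := hfin d hd
      obtain ⟨f, hf, h1, h2⟩ := hdir _ hd0 _ hd
      obtain ⟨n', k', rfl⟩ := hfin f hf
      rcases pt_le_pt.mp h1 with ⟨e1, _⟩ | ⟨h, _⟩
      · rcases pt_le_pt.mp h2 with ⟨e2, _⟩ | ⟨h, _⟩
        · exact ⟨k, by rw [e1, e2]⟩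
        · exact absurd h (WithTop.coe_ne_top)
      · exact absurd h (WithTop.coe_ne_top)
    refine ⟨m, hcol, fun n => ?_⟩
    induction n with
    | zero => exact ⟨k0, Nat.zero_le _, hd0⟩
    | succ n ih =>
      obtain ⟨k, hk, hkD⟩ := ih
      obtain ⟨e, he, hek⟩ := hmax _ hkD
      obtain ⟨l, rfl⟩ := hcol e he
      refine ⟨l, ?_, he⟩
      have : ¬ l ≤ k := fun h => hek (pt_le_pt.mpr (Or.inl ⟨rfl, by exact_mod_cast h⟩))
      omega

theorem isDcpo_PT : IsDcpo PT := by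
  intro D hne hdir
  rcases directed_cases D hne hdir with ⟨s, _, hs⟩ | ⟨m, h1, h2⟩
  · exact ⟨s, hs⟩
  · exact ⟨_, isLUB_column m D h1 h2⟩

theorem open_iff (U : Set PT) : IsOpen[scott PT] U ↔
    IsUpperSet U ∧ ∀ m : ℕ, pt m ⊤ ∈ U → ∃ k : ℕ, pt m k ∈ U := by
  rw [scott_isOpen_iff]
  refine and_congr_right fun hU => ⟨fun h m hm => ?_, fun h D hne hdir s hs hsU => ?_⟩
  · have hcol : ∀ d ∈ range (fun k : ℕ => pt m k), ∃ k : ℕ, d = pt m k := by
      rintro _ ⟨k, rfl⟩; exact ⟨k, rfl⟩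
    obtain ⟨_, ⟨k, rfl⟩, hk⟩ := h (range fun k : ℕ => pt m k) ⟨_, 0, rfl⟩ (by
      rintro _ ⟨k, rfl⟩ _ ⟨l, rfl⟩
      exact ⟨_, ⟨max k l, rfl⟩, pt_le_pt.mpr (Or.inl ⟨rfl, by simp⟩),
        pt_le_pt.mpr (Or.inl ⟨rfl, by simp⟩)⟩) (pt m ⊤)
      (isLUB_column m _ hcol fun n => ⟨n, le_rfl, n, rfl⟩) hm
    exact ⟨k, hk⟩
  · rcases directed_cases D hne hdir with ⟨t, ht, hlub⟩ | ⟨m, h1, h2⟩
    · rw [hs.unique hlub] at hsU
      exact ⟨t, ht, hsU⟩
    · rw [hs.unique (isLUB_column m D h1 h2)] at hsU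
      obtain ⟨k, hk⟩ := h m hsU
      obtain ⟨l, hkl, hl⟩ := h2 k
      exact ⟨_, hl, hU (pt_le_pt.mpr (Or.inl ⟨rfl, by exact_mod_cast hkl⟩)) hk⟩

/-- a Scott open set containing a point of Johnstone's dcpo contains almost all tops -/
theorem cofinite_tops {U : Set PT} (hU : IsOpen[scott PT] U) (h : ∃ x : JP, (x : PT) ∈ U) :
    ∃ n : ℕ, ∀ m, n ≤ m → pt m ⊤ ∈ U := by
  rw [open_iff] at hU
  obtain ⟨⟨j, k⟩, hx⟩ := h
  have hx' : pt j k ∈ U := hx
  have : ∃ k : ℕ, pt j k ∈ U := by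
    induction k with
    | top => exact hU.2 j hx'
    | coe k => exact ⟨k, hx'⟩
  obtain ⟨k, hk⟩ := this
  exact ⟨k, fun m hm => hU.1 (pt_le_pt.mpr (Or.inr ⟨rfl, by exact_mod_cast hm⟩)) hk⟩

/-- the compatible well-filtered topology -/
@[reducible] def tau : TopologicalSpace PT where
  IsOpen U := U = ∅ ∨ (IsOpen[scott PT] U ∧ ∃ x : JP, (x : PT) ∈ U)
  isOpen_univ := Or.inr ⟨@isOpen_univ _ (scott PT), ⟨0, 0⟩, trivial⟩
  isOpen_inter := by
    rintro U V (rfl | ⟨hU, hU'⟩) (rfl | ⟨hV, hV'⟩)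
    · left; simp
    · left; simp
    · left; simp
    · right
      refine ⟨@IsOpen.inter _ (scott PT) _ _ hU hV, ?_⟩
      obtain ⟨n, hn⟩ := cofinite_tops hU hU'
      obtain ⟨m, hm⟩ := cofinite_tops hV hV'
      exact ⟨⟨max n m, ⊤⟩, hn _ (le_max_left _ _), hm _ (le_max_right _ _)⟩
  isOpen_sUnion := by
    intro S hS
    by_cases h : ∃ U ∈ S, U ≠ ∅
    · right
      constructor
      · refine @isOpen_sUnion _ (scott PT) S fun U hU => ?_
        rcases hS U hU with rfl | h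
        · exact @isOpen_empty _ (scott PT)
        · exact h.1
      · obtain ⟨U, hU, hne⟩ := h
        rcases hS U hU with rfl | ⟨_, x, hx⟩
        · exact absurd rfl hne
        · exact ⟨x, U, hU, hx⟩
    · left
      push Not at h
      ext z
      simp only [mem_sUnion, mem_empty_iff_false, iff_false, not_exists, not_and]
      intro U hU hz
      rw [h U hU] at hz
      exact hz

theorem tau_scott {U : Set PT} (h : IsOpen[tau] U) : IsOpen[scott PT] U := by
  rcases h with rfl | h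
  · exact @isOpen_empty _ (scott PT)
  · exact h.1

theorem tau_upper {U : Set PT} (h : IsOpen[tau] U) : IsUpperSet U := (tau_scott h).1

theorem tau_isClosed_Iic (x : PT) : IsClosed[tau] (Iic x) := by
  refine (@isOpen_compl_iff PT (Iic x) tau).mp ?_
  rcases PT.cases x with rfl | ⟨m, rfl⟩ | ⟨m, k, rfl⟩
  · left; simp
  · right
    refine ⟨(@isOpen_compl_iff PT _ (scott PT)).mpr (isClosed_Iic_scott _), ⟨m + 1, ⊤⟩, ?_⟩
    intro h
    rcases pt_le_pt.mp (show pt (m + 1) ⊤ ≤ pt m ⊤ from h) with ⟨h, _⟩ | ⟨_, h⟩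
    · omega
    · exact absurd h (by simp)
  · right
    refine ⟨(@isOpen_compl_iff PT _ (scott PT)).mpr (isClosed_Iic_scott _), ⟨m, ⊤⟩, ?_⟩
    intro h
    rcases pt_le_pt.mp (show pt m ⊤ ≤ pt m k from h) with ⟨_, h⟩ | ⟨h, _⟩
    · exact absurd h (by simp)
    · exact absurd h (WithTop.coe_ne_top)

theorem tau_compatible : Compatible tau := by
  intro x
  apply subset_antisymm
  · exact @closure_minimal PT tau _ _ (by simp) (tau_isClosed_Iic x)
  · intro y hy
    rw [@mem_closure_iff PT tau]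
    intro V hV hyV
    exact ⟨x, tau_upper hV hy hyV, rfl⟩

theorem tau_t0 : @T0Space PT tau := by
  let _ := tau
  rw [t0Space_iff_inseparable]
  intro x y hxy
  have h1 : x ≤ y := by
    have := (hxy.mem_closed_iff (tau_isClosed_Iic y)).mpr (by simp)
    exact this
  have h2 : y ≤ x := by
    have := (hxy.mem_closed_iff (tau_isClosed_Iic x)).mp (by simp)
    exact this
  exact le_antisymm h1 h2

/-- finitely many points can be avoided simultaneously -/
theorem avoid {X : Type*} (F : Set (Set X)) (hne : F.Nonempty)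
    (hfil : ∀ K ∈ F, ∀ L ∈ F, ∃ M ∈ F, M ⊆ K ∧ M ⊆ L) (S : Set X) (hS : S.Finite)
    (h : ∀ y ∈ S, ∃ K ∈ F, y ∉ K) : ∃ K ∈ F, ∀ y ∈ S, y ∉ K := by
  induction S, hS using Set.Finite.induction_on with
  | empty =>
    obtain ⟨K, hK⟩ := hne
    exact ⟨K, hK, by simp⟩
  | @insert a S _ _ ih =>
    obtain ⟨K, hK, h1⟩ := ih fun y hy => h y (mem_insert_of_mem _ hy)
    obtain ⟨L, hL, h2⟩ := h a (mem_insert _ _)
    obtain ⟨M, hM, hMK, hML⟩ := hfil K hK L hL
    refine ⟨M, hM, ?_⟩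
    rintro y (rfl | hy)
    · exact fun hy => h2 (hML hy)
    · exact fun hy' => h1 y hy (hMK hy')

theorem tau_wellFiltered : WellFiltered tau := by
  classical
  refine ⟨tau_t0, fun F hne hfil hK U hU hFU => ?_⟩
  by_contra hcon
  push Not at hcon
  have hKu : ∀ K ∈ F, IsUpperSet K := by
    intro K hKF
    obtain ⟨S, hS, rfl⟩ := (hK K hKF).2
    exact isUpperSet_sInter fun V hV => tau_upper (hS V hV)
  have htop : ∀ K ∈ F, (⊤ : PT) ∈ K := by
    intro K hKF
    obtain ⟨z, hz, _⟩ := not_subset.mp (hcon K hKF)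
    exact hKu K hKF le_top hz
  have hU' : IsOpen[scott PT] U ∧ ∃ x : JP, (x : PT) ∈ U := by
    rcases hU with rfl | h
    · exact absurd (hFU (fun K hKF => htop K hKF)) (notMem_empty _)
    · exact h
  obtain ⟨hUs, hUx⟩ := hU'
  obtain ⟨n0, hn0⟩ := cofinite_tops hUs hUx
  have hUi := (open_iff U).mp hUs
  -- avoid the finitely many tops outside U
  obtain ⟨K0, hK0, h0⟩ := avoid F hne hfil {y | ∃ m < n0, y = pt m ⊤ ∧ pt m ⊤ ∉ U}
    (by
      refine ((Set.finite_lt_nat n0).image fun m => pt m ⊤).subset ?_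
      rintro _ ⟨m, hm, rfl, _⟩
      exact ⟨m, hm, rfl⟩)
    (by
      rintro _ ⟨m, hm, rfl, hmU⟩
      by_contra hno
      push Not at hno
      exact hmU (hFU fun K hKF => hno K hKF))
  have htops : ∀ m, pt m ⊤ ∈ K0 → pt m ⊤ ∈ U := by
    intro m hm
    by_contra hmU
    rcases lt_or_ge m n0 with h | h
    · exact h0 _ ⟨m, h, rfl, hmU⟩ hm
    · exact hmU (hn0 m h)
  have htopU : (⊤ : PT) ∈ U := by
    obtain ⟨x, hx⟩ := hUx
    exact hUi.1 le_top hx
  -- points of K0 \ U have finite height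
  have hfin : ∀ y ∈ K0, y ∉ U → ∃ j k : ℕ, y = pt j k := by
    intro y hy hyU
    rcases PT.cases y with rfl | ⟨m, rfl⟩ | h
    · exact absurd htopU hyU
    · exact absurd (htops m hy) hyU
    · exact h
  -- the open cover
  have hWopen : ∀ j : ℕ, IsOpen[tau] (U ∪ {y | ∃ k k' : ℕ, k' ≤ k ∧ y = pt j k ∧
      pt j k' ∈ K0 ∧ pt j k' ∉ U}) := by
    intro j
    right
    constructor
    · rw [open_iff]
      constructor
      · rintro a b hab (ha | ⟨k, k', hk, rfl, hk1, hk2⟩)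
        · exact Or.inl (hUi.1 hab ha)
        · rcases PT.cases b with rfl | ⟨m, rfl⟩ | ⟨m, l, rfl⟩
          · exact Or.inl htopU
          · left
            apply htops
            refine hKu K0 hK0 (le_trans ?_ hab) hk1
            exact pt_le_pt.mpr (Or.inl ⟨rfl, by exact_mod_cast hk⟩)
          · right
            rcases pt_le_pt.mp hab with ⟨rfl, h⟩ | ⟨h, _⟩
            · exact ⟨l, k', hk.trans (by exact_mod_cast h), rfl, hk1, hk2⟩
            · exact absurd h (WithTop.coe_ne_top)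
      · rintro m (hm | ⟨k, k', _, h, _⟩)
        · obtain ⟨k, hk⟩ := hUi.2 m hm
          exact ⟨k, Or.inl hk⟩
        · exfalso
          unfold pt at h
          have h2 := WithTop.coe_injective h
          injection h2 with _ h3
          exact absurd h3.symm (WithTop.coe_ne_top)
    · obtain ⟨x, hx⟩ := hUx
      exact ⟨x, Or.inl hx⟩
  obtain ⟨t, ht⟩ := (@isCompact_iff_finite_subcover PT tau K0).mp (hK K0 hK0).1 _ hWopen (by
    intro y hy
    by_cases hyU : y ∈ U
    · exact mem_iUnion.mpr ⟨0, Or.inl hyU⟩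
    · obtain ⟨j, k, rfl⟩ := hfin y hy hyU
      exact mem_iUnion.mpr ⟨j, Or.inr ⟨k, k, le_rfl, rfl, hy, hyU⟩⟩)
  -- K0 \ U is finite
  have hcolfin : ∀ j : ℕ, {y | ∃ k : ℕ, y = pt j k ∧ y ∈ K0 ∧ y ∉ U}.Finite := by
    intro j
    by_cases hj : ∃ k : ℕ, pt j k ∈ K0
    · obtain ⟨k, hk⟩ := hj
      have h1 : pt j ⊤ ∈ K0 := hKu K0 hK0 (pt_le_pt.mpr (Or.inl ⟨rfl, le_top⟩)) hk
      obtain ⟨l, hl⟩ := hUi.2 j (htops j h1)
      refine ((Set.finite_lt_nat l).image fun k : ℕ => pt j k).subset ?_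
      rintro _ ⟨k, rfl, _, hkU⟩
      refine ⟨k, ?_, rfl⟩
      by_contra hlt
      have hlt' : l ≤ k := not_lt.mp hlt
      exact hkU (hUi.1 (pt_le_pt.mpr (Or.inl ⟨rfl, by exact_mod_cast hlt'⟩)) hl)
    · refine Set.Finite.subset Set.finite_empty ?_
      rintro _ ⟨k, rfl, hk, _⟩
      exact absurd ⟨k, hk⟩ hj
  have hS : (K0 \ U).Finite := by
    refine (t.finite_toSet.biUnion fun j _ => hcolfin j).subset ?_
    rintro y ⟨hy, hyU⟩
    obtain ⟨j, hj, hyj⟩ := mem_iUnion₂.mp (ht hy)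
    rcases hyj with h | ⟨k, k', hk, rfl, _⟩
    · exact absurd h hyU
    · exact mem_iUnion₂.mpr ⟨j, hj, k, rfl, hy, hyU⟩
  obtain ⟨K1, hK1, h1⟩ := avoid F hne hfil _ hS (by
    rintro y ⟨hy, hyU⟩
    by_contra hno
    push Not at hno
    exact hyU (hFU fun K hKF => hno K hKF))
  obtain ⟨M, hM, hM0, hM1⟩ := hfil K0 hK0 K1 hK1
  apply hcon M hM
  intro z hz
  by_contra hzU
  exact h1 z ⟨hM0 hz, hzU⟩ (hM1 hz)

theorem isWellFilteredDcpo_PT : IsWellFilteredDcpo PT := ⟨isDcpo_PT, tau, tau_compatible, tau_wellFiltered⟩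

/-- The one-point poset is a well-filtered dcpo. -/
theorem isWellFilteredDcpo_unit : IsWellFilteredDcpo Unit := by
  refine ⟨fun D _ _ => ⟨(), fun _ _ => le_rfl, fun _ _ => le_rfl⟩, scott Unit, ?_, t0_scott, ?_⟩
  · intro x
    apply subset_antisymm
    · exact fun y _ => le_of_eq (Subsingleton.elim y x)
    · intro y _
      rw [Subsingleton.elim y x]
      exact @subset_closure _ (scott Unit) _ _ rfl
  · intro F hne _ _ U _ hFU
    by_contra hcon
    push Not at hcon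
    have : (() : Unit) ∉ U := by
      intro h
      obtain ⟨K, hK⟩ := hne
      exact hcon K hK fun y _ => by rw [Subsingleton.elim y ()]; exact h
    apply this
    apply hFU
    intro K hK
    obtain ⟨z, hz, _⟩ := not_subset.mp (hcon K hK)
    rwa [Subsingleton.elim () z]

/-- **Negative answer in the sense of compatible topologies.** There are two well-filtered dcpos
(in the sense that some compatible topology is well-filtered) such that the Scott topology of
their product is not well-filtered. -/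
theorem compatible_negative : ∃ (P Q : Type) (_ : PartialOrder P) (_ : PartialOrder Q),
    IsWellFilteredDcpo P ∧ IsWellFilteredDcpo Q ∧ ¬ WellFiltered (scott (P × Q)) := by
  refine ⟨PT, Unit, inferInstance, inferInstance, isWellFilteredDcpo_PT, isWellFilteredDcpo_unit,
    ?_⟩
  rintro ⟨_, hwf⟩
  -- Scott open sets of the product
  have hsec : ∀ U : Set (PT × Unit), IsOpen[scott (PT × Unit)] U →
      IsOpen[scott PT] {x | (x, ()) ∈ U} := by
    intro U hU
    refine ⟨fun a b hab ha => hU.1 (show (a, ()) ≤ (b, ()) from ⟨hab, le_rfl⟩) ha,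
      fun D hD hdir s hs hsU => ?_⟩
    obtain ⟨_, ⟨d, hd, rfl⟩, hdU⟩ := hU.2 ((fun x => (x, ())) '' D) (hD.image _)
      (by
        rintro _ ⟨a, ha, rfl⟩ _ ⟨b, hb, rfl⟩
        obtain ⟨c, hc, hac, hbc⟩ := hdir a ha b hb
        exact ⟨(c, ()), ⟨c, hc, rfl⟩, ⟨hac, le_rfl⟩, ⟨hbc, le_rfl⟩⟩) (s, ()) (by
        constructor
        · rintro _ ⟨a, ha, rfl⟩
          exact ⟨hs.1 ha, le_rfl⟩
        · intro b hb
          exact ⟨hs.2 fun a ha => (hb ⟨a, ha, rfl⟩).1, le_rfl⟩) hsU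
    exact ⟨d, hd, hdU⟩
  obtain ⟨L, ⟨n, rfl⟩, hL⟩ := hwf
    (range fun n : ℕ => {z : PT × Unit | z.1 = ⊤ ∨ ∃ m, n ≤ m ∧ z.1 = pt m ⊤})
    ⟨_, 0, rfl⟩
    (by
      rintro _ ⟨n, rfl⟩ _ ⟨n', rfl⟩
      refine ⟨_, ⟨max n n', rfl⟩, ?_, ?_⟩
      · rintro z (h | ⟨m, hm, h⟩)
        · exact Or.inl h
        · exact Or.inr ⟨m, (le_max_left _ _).trans hm, h⟩
      · rintro z (h | ⟨m, hm, h⟩)
        · exact Or.inl h
        · exact Or.inr ⟨m, (le_max_right _ _).trans hm, h⟩)
    (by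
      rintro _ ⟨n, rfl⟩
      constructor
      · rw [@isCompact_iff_finite_subcover]
        intro ι V hV hcov
        have h1 : (pt n ⊤, ()) ∈ ⋃ i, V i := hcov (Or.inr ⟨n, le_rfl, rfl⟩)
        obtain ⟨i, hi⟩ := mem_iUnion.mp h1
        have hVi := hsec _ (hV i)
        obtain ⟨N, hN⟩ := cofinite_tops hVi ⟨⟨n, ⊤⟩, hi⟩
        have h2 : ∀ m : ℕ, ∃ i, n ≤ m → (pt m ⊤, ()) ∈ V i := by
          intro m
          by_cases hm : n ≤ m
          · obtain ⟨j, hj⟩ := mem_iUnion.mp (hcov (show (pt m ⊤, ()) ∈ _ from Or.inr ⟨m, hm, rfl⟩))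
            exact ⟨j, fun _ => hj⟩
          · exact ⟨i, fun h => absurd h hm⟩
        choose c hc using h2
        classical
        refine ⟨insert i ((Finset.range N).image c), ?_⟩
        rintro ⟨z, _⟩ (h | ⟨m, hm, h⟩)
        · simp only at h
          subst h
          exact mem_iUnion₂.mpr ⟨i, Finset.mem_insert_self _ _, hVi.1 le_top hi⟩
        · simp only at h
          subst h
          rcases lt_or_ge m N with hlt | hge
          · exact mem_iUnion₂.mpr ⟨c m, Finset.mem_insert_of_mem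
              (Finset.mem_image_of_mem _ (Finset.mem_range.mpr hlt)), hc m hm⟩
          · exact mem_iUnion₂.mpr ⟨i, Finset.mem_insert_self _ _, hN m hge⟩
      · apply saturated_scott_of_isUpperSet
        rintro ⟨a, _⟩ ⟨b, _⟩ hab (h | ⟨m, hm, h⟩)
        · simp only at h
          subst h
          exact Or.inl (top_le_iff.mp hab.1)
        · simp only at h
          subst h
          rcases PT.cases b with rfl | ⟨k, rfl⟩ | ⟨k, l, rfl⟩
          · exact Or.inl rfl
          · rcases pt_le_pt.mp hab.1 with ⟨h, _⟩ | ⟨_, h⟩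
            · exact Or.inr ⟨m, hm, by rw [h]⟩
            · exact absurd h (by simp)
          · exfalso
            rcases pt_le_pt.mp hab.1 with ⟨_, h⟩ | ⟨h, _⟩
            · exact absurd h (by simp)
            · exact absurd h (WithTop.coe_ne_top))
    {z | z.1 = ⊤}
    (by
      constructor
      · rintro ⟨a, _⟩ ⟨b, _⟩ hab h
        simp only [mem_ofPred_eq] at h ⊢
        rw [h] at hab
        exact top_le_iff.mp hab.1
      · intro D hD hdir s hs hsU
        have hD' : (Prod.fst '' D).Nonempty := hD.image _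
        have hdir' : DirectedOn (· ≤ ·) (Prod.fst '' D) := by
          rintro _ ⟨a, ha, rfl⟩ _ ⟨b, hb, rfl⟩
          obtain ⟨c, hc, hac, hbc⟩ := hdir a ha b hb
          exact ⟨c.1, ⟨c, hc, rfl⟩, hac.1, hbc.1⟩
        have hs' := (isLUB_prod.mp hs).1
        rcases directed_cases _ hD' hdir' with ⟨t, ⟨d, hd, rfl⟩, hlub⟩ | ⟨m, h1, h2⟩
        · refine ⟨d, hd, ?_⟩
          have := hlub.unique hs'
          show d.1 = ⊤
          rw [this]; exact hsU
        · have := hs'.unique (isLUB_column m _ h1 h2)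
          exfalso
          have h3 : s.1 = ⊤ := hsU
          rw [this] at h3
          exact pt_ne_top _ _ h3)
    (by
      intro z hz
      rcases hz _ ⟨0, rfl⟩ with h | ⟨m, _, h⟩
      · exact h
      · exfalso
        rcases hz _ ⟨m + 1, rfl⟩ with h' | ⟨m', hm', h'⟩
        · rw [h] at h'; exact pt_ne_top _ _ h'
        · rw [h] at h'
          have h2 := WithTop.coe_injective h'
          injection h2 with h3 _
          omega)
  have := hL (show (pt n ⊤, ()) ∈ _ from Or.inr ⟨n, le_rfl, rfl⟩)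
  exact pt_ne_top _ _ this

/-- **Both readings at once.**
(1) For nonempty dcpos `P`, `Q`, the Scott space of the product dcpo `P × Q` is well-filtered if and
only if the Scott spaces of `P` and of `Q` are; and for all dcpos `P`, `Q` (possibly empty), if the
Scott spaces of `P` and `Q` are well-filtered then so is that of `P × Q`.
(2) There are dcpos `P`, `Q`, each with a compatible well-filtered topology, such that the Scott
space of `P × Q` is not well-filtered. -/
theorem result :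
    (∀ (P : Type u) (Q : Type v) [PartialOrder P] [PartialOrder Q], IsDcpo P → IsDcpo Q →
      ScottWellFiltered P → ScottWellFiltered Q → ScottWellFiltered (P × Q)) ∧
    (∀ (P : Type u) (Q : Type v) [PartialOrder P] [PartialOrder Q] [Nonempty P] [Nonempty Q],
      IsDcpo P → IsDcpo Q →
      (ScottWellFiltered (P × Q) ↔ ScottWellFiltered P ∧ ScottWellFiltered Q)) ∧
    (∃ (P Q : Type) (_ : PartialOrder P) (_ : PartialOrder Q),
      IsWellFilteredDcpo P ∧ IsWellFilteredDcpo Q ∧ ¬ ScottWellFiltered (P × Q)) := by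
  refine ⟨fun P Q _ _ _ _ hP hQ => scott_product P Q hP hQ, fun P Q _ _ hPn hQn _ _ => ?_,
    compatible_negative⟩
  obtain ⟨p⟩ := hPn
  obtain ⟨q⟩ := hQn
  exact ⟨fun h => ⟨scott_retract h (fun x => (x, q)) Prod.fst (cont_left q) cont_fst
      (fun _ _ h => h.1) fun _ => rfl,
    scott_retract h (fun y => (p, y)) Prod.snd (cont_right p) cont_snd
      (fun _ _ h => h.2) fun _ => rfl⟩, fun h => scott_product P Q h.1 h.2⟩

end Pool.Agent.Results.MP_70096d_gt.AllReadings
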