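import Mathlib

namespace Pool.Agent.Results.MP_70096d_gt.ScottProduct

open Set Topology

/-- The Scott topology of a poset: a set is open iff it is an upper set and every directed
(nonempty) subset whose supremum lies in it meets it. -/
@[reducible] def scott (P : Type*) [PartialOrder P] : TopologicalSpace P where
  IsOpen U := IsUpperSet U ∧ ∀ D : Set P, D.Nonempty → DirectedOn (· ≤ ·) D →
    ∀ s, IsLUB D s → s ∈ U → (D ∩ U).Nonempty
  isOpen_univ := ⟨isUpperSet_univ, fun D hD _ _ _ _ => by simpa using hD⟩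
  isOpen_inter := by
    rintro U V ⟨hU, hU'⟩ ⟨hV, hV'⟩
    refine ⟨hU.inter hV, fun D hD hdir s hs hsUV => ?_⟩
    obtain ⟨a, ha, haU⟩ := hU' D hD hdir s hs hsUV.1
    obtain ⟨b, hb, hbV⟩ := hV' D hD hdir s hs hsUV.2
    obtain ⟨c, hc, hac, hbc⟩ := hdir a ha b hb
    exact ⟨c, hc, hU hac haU, hV hbc hbV⟩
  isOpen_sUnion := by
    intro S hS
    refine ⟨isUpperSet_sUnion fun U hU => (hS U hU).1, fun D hD hdir s hs hsU => ?_⟩
    obtain ⟨U, hU, hsU⟩ := hsU
    obtain ⟨a, ha, haU⟩ := (hS U hU).2 D hD hdir s hs hsU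
    exact ⟨a, ha, U, hU, haU⟩

/-- A dcpo: every (nonempty) directed subset has a supremum. -/
def IsDcpo (P : Type*) [PartialOrder P] : Prop :=
  ∀ D : Set P, D.Nonempty → DirectedOn (· ≤ ·) D → ∃ s, IsLUB D s

/-- A set is saturated if it is an intersection of open sets. -/
def Saturated {X : Type*} (τ : TopologicalSpace X) (K : Set X) : Prop :=
  ∃ S : Set (Set X), (∀ U ∈ S, IsOpen[τ] U) ∧ K = ⋂₀ S

/-- A `T₀` space is well-filtered if, whenever a filtered family of compact saturated sets has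
its intersection contained in an open set `U`, some member of the family is contained in `U`. -/
def WellFiltered {X : Type*} (τ : TopologicalSpace X) : Prop :=
  @T0Space X τ ∧ ∀ F : Set (Set X), F.Nonempty →
    (∀ K ∈ F, ∀ L ∈ F, ∃ M ∈ F, M ⊆ K ∧ M ⊆ L) →
    (∀ K ∈ F, @IsCompact X τ K ∧ Saturated τ K) →
    ∀ U : Set X, IsOpen[τ] U → ⋂₀ F ⊆ U → ∃ K ∈ F, K ⊆ U

/-- `P` is Scott well-filtered. -/
def ScottWellFiltered (P : Type*) [PartialOrder P] : Prop := WellFiltered (scott P)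

section scottFacts

variable {P : Type*} [PartialOrder P]

theorem scott_isOpen_iff {U : Set P} : IsOpen[scott P] U ↔ IsUpperSet U ∧
    ∀ D : Set P, D.Nonempty → DirectedOn (· ≤ ·) D → ∀ s, IsLUB D s → s ∈ U → (D ∩ U).Nonempty :=
  Iff.rfl

theorem isClosed_Iic_scott (x : P) : IsClosed[scott P] (Iic x) := by
  refine (@isOpen_compl_iff P (Iic x) (scott P)).mp ?_
  refine ⟨(isLowerSet_Iic x).compl, fun D _ _ s hs hsx => ?_⟩
  by_contra hcon
  apply hsx
  apply hs.2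
  intro d hd
  by_contra hdx
  exact hcon ⟨d, hd, hdx⟩

theorem t0_scott : @T0Space P (scott P) := by
  let _ := scott P
  rw [t0Space_iff_inseparable]
  intro x y hxy
  have h1 : x ≤ y := by
    have := (hxy.mem_closed_iff (isClosed_Iic_scott y)).mpr (by simp)
    exact this
  have h2 : y ≤ x := by
    have := (hxy.mem_closed_iff (isClosed_Iic_scott x)).mp (by simp)
    exact this
  exact le_antisymm h1 h2

theorem saturated_scott_of_isUpperSet {K : Set P} (hK : IsUpperSet K) : Saturated (scott P) K := by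
  refine ⟨{V | ∃ x, x ∉ K ∧ V = (Iic x)ᶜ}, ?_, ?_⟩
  · rintro _ ⟨x, _, rfl⟩
    exact (isClosed_Iic_scott x).isOpen_compl
  · ext y
    simp only [mem_sInter, mem_ofPred_eq]
    constructor
    · rintro hy _ ⟨x, hx, rfl⟩ hyx
      exact hx (hK hyx hy)
    · intro h
      by_contra hy
      exact h _ ⟨y, hy, rfl⟩ (le_refl y)

end scottFacts

/-- The closure of the image of a minimal set is the closure of a point. -/
theorem point_exists {Z W : Type*} [TopologicalSpace Z] [TopologicalSpace W] [PartialOrder W]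
    (hWu : ∀ U : Set W, IsOpen U → IsUpperSet U) (hWI : ∀ x : W, IsClosed (Iic x))
    (hW : WellFiltered (inferInstance : TopologicalSpace W))
    (hWs : ∀ K : Set W, IsUpperSet K → Saturated (inferInstance : TopologicalSpace W) K)
    (h : Z → W) (hh : Continuous h) (A : Set Z) (hAc : IsClosed A) (F : Set (Set Z))
    (hne : F.Nonempty) (hfil : ∀ K ∈ F, ∀ L ∈ F, ∃ M ∈ F, M ⊆ K ∧ M ⊆ L)
    (hK : ∀ K ∈ F, IsCompact K) (hAK : ∀ K ∈ F, (A ∩ K).Nonempty)
    (hmin : ∀ B : Set Z, IsClosed B → (∀ K ∈ F, (A ∩ B ∩ K).Nonempty) → A ⊆ B) :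
    ∃ p : W, p ∈ closure (h '' A) ∧ ∀ z ∈ A, h z ≤ p := by
  have hex : ∃ p, p ∈ closure (h '' A) ∧ ∀ K ∈ F, ∃ z ∈ A ∩ K, h z ≤ p := by
    by_contra hno
    push Not at hno
    obtain ⟨L, ⟨K, hKF, rfl⟩, hL⟩ := hW.2
      {L | ∃ K ∈ F, L = {w | ∃ z ∈ A ∩ K, h z ≤ w}}
      (by
        obtain ⟨K, hK⟩ := hne
        exact ⟨_, K, hK, rfl⟩)
      (by
        rintro _ ⟨K, hKF, rfl⟩ _ ⟨L, hLF, rfl⟩
        obtain ⟨M, hM, hMK, hML⟩ := hfil K hKF L hLF
        exact ⟨_, ⟨M, hM, rfl⟩, fun w ⟨z, hz, hw⟩ => ⟨z, ⟨hz.1, hMK hz.2⟩, hw⟩,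
          fun w ⟨z, hz, hw⟩ => ⟨z, ⟨hz.1, hML hz.2⟩, hw⟩⟩)
      (by
        rintro _ ⟨K, hKF, rfl⟩
        constructor
        · have hc : IsCompact (h '' (A ∩ K)) := by
            rw [inter_comm]
            exact ((hK K hKF).inter_right hAc).image hh
          rw [isCompact_iff_finite_subcover] at hc ⊢
          intro ι V hV hcov
          obtain ⟨t, ht⟩ := hc V hV (by
            rintro _ ⟨z, hz, rfl⟩
            exact hcov ⟨z, hz, le_rfl⟩)
          refine ⟨t, ?_⟩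
          rintro w ⟨z, hz, hzw⟩
          have := ht ⟨z, hz, rfl⟩
          rw [mem_iUnion₂] at this ⊢
          obtain ⟨i, hi, hzi⟩ := this
          exact ⟨i, hi, hWu _ (hV i) hzw hzi⟩
        · apply hWs
          rintro a b hab ⟨z, hz, hza⟩
          exact ⟨z, hz, hza.trans hab⟩)
      (closure (h '' A))ᶜ isClosed_closure.isOpen_compl
      (by
        intro w hw hwc
        obtain ⟨K, hKF, hno'⟩ := hno w hwc
        obtain ⟨z, hz, hzw⟩ := hw _ ⟨K, hKF, rfl⟩
        exact hno' z hz hzw)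
    obtain ⟨z, hz⟩ := hAK K hKF
    exact hL ⟨z, hz, le_rfl⟩ (subset_closure ⟨z, hz.1, rfl⟩)
  obtain ⟨p, hp, hpK⟩ := hex
  refine ⟨p, hp, ?_⟩
  have := hmin (h ⁻¹' Iic p) ((hWI p).preimage hh) (by
    intro K hKF
    obtain ⟨z, hz, hzp⟩ := hpK K hKF
    exact ⟨z, ⟨hz.1, hzp⟩, hz.2⟩)
  exact fun z hz => this hz

/-- The core of the argument, for three spaces. -/
theorem core {X Y Z : Type*} [TopologicalSpace X] [TopologicalSpace Y] [TopologicalSpace Z]
    [PartialOrder X] [PartialOrder Y]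
    (hXo : ∀ U : Set X, IsOpen U ↔ IsUpperSet U ∧ ∀ D : Set X, D.Nonempty →
      DirectedOn (· ≤ ·) D → ∀ s, IsLUB D s → s ∈ U → (D ∩ U).Nonempty)
    (hYo : ∀ U : Set Y, IsOpen U → IsUpperSet U)
    (hXI : ∀ x : X, IsClosed (Iic x)) (hYI : ∀ y : Y, IsClosed (Iic y))
    (hX : WellFiltered (inferInstance : TopologicalSpace X))
    (hY : WellFiltered (inferInstance : TopologicalSpace Y))
    (hXs : ∀ K : Set X, IsUpperSet K → Saturated (inferInstance : TopologicalSpace X) K)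
    (hYs : ∀ K : Set Y, IsUpperSet K → Saturated (inferInstance : TopologicalSpace Y) K)
    (f : Z → X) (g : Z → Y) (mk : X → Y → Z) (hf : Continuous f) (hg : Continuous g)
    (hmf : ∀ x y, f (mk x y) = x) (hmg : ∀ x y, g (mk x y) = y) (hmk : ∀ z, mk (f z) (g z) = z)
    (hs1 : ∀ y, Continuous fun x => mk x y) (hs2 : ∀ x, Continuous (mk x))
    (F : Set (Set Z)) (hne : F.Nonempty) (hfil : ∀ K ∈ F, ∀ L ∈ F, ∃ M ∈ F, M ⊆ K ∧ M ⊆ L)
    (hK : ∀ K ∈ F, IsCompact K ∧ Saturated (inferInstance : TopologicalSpace Z) K)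
    (U : Set Z) (hU : IsOpen U) (hFU : ⋂₀ F ⊆ U) : ∃ K ∈ F, K ⊆ U := by
  classical
  by_contra hcon
  push Not at hcon
  -- a minimal closed set meeting all members of the family
  obtain ⟨A, hAU, hAmin⟩ : ∃ A : Set Z, A ⊆ Uᶜ ∧
      Minimal (fun B : Set Z => IsClosed B ∧ ∀ K ∈ F, (B ∩ K).Nonempty) A := by
    have hz := zorn_superset_nonempty {B : Set Z | IsClosed B ∧ ∀ K ∈ F, (B ∩ K).Nonempty}
      (by
        intro c hc hchain hcne
        refine ⟨⋂₀ c, ⟨isClosed_sInter fun B hB => (hc hB).1, fun K hKF => ?_⟩,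
          fun B hB => sInter_subset_of_mem hB⟩
        by_contra hempty
        rw [not_nonempty_iff_eq_empty, inter_comm] at hempty
        have : Nonempty c := hcne.to_subtype
        obtain ⟨B, hB⟩ := (hK K hKF).1.elim_directed_family_closed (fun B : c => (B : Set Z))
          (fun B => (hc B.2).1) (by rw [← sInter_eq_iInter]; exact hempty) (by
            intro B C
            rcases hchain.total B.2 C.2 with h | h
            · exact ⟨B, subset_rfl, h⟩
            · exact ⟨C, h, subset_rfl⟩)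
        have := (hc B.2).2 K hKF
        rw [inter_comm, hB] at this
        exact not_nonempty_empty this) Uᶜ
      ⟨hU.isClosed_compl, fun K hKF => by
        obtain ⟨z, hz, hzU⟩ := not_subset.mp (hcon K hKF)
        exact ⟨z, hzU, hz⟩⟩
    obtain ⟨A, hAU, hA⟩ := hz
    exact ⟨A, hAU, hA⟩
  have hAc : IsClosed A := hAmin.prop.1
  have hAK : ∀ K ∈ F, (A ∩ K).Nonempty := hAmin.prop.2
  -- minimality in usable form
  have hmin : ∀ B : Set Z, IsClosed B → (∀ K ∈ F, (A ∩ B ∩ K).Nonempty) → A ⊆ B := by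
    intro B hB hBK
    have := hAmin.le_of_le (y := A ∩ B) ⟨hAc.inter hB, hBK⟩ inter_subset_left
    exact this.trans inter_subset_right
  have hXu : ∀ U : Set X, IsOpen U → IsUpperSet U := fun U hU => ((hXo U).mp hU).1
  -- opens of Z are upper
  have hZu : ∀ V : Set Z, IsOpen V → ∀ z x y, z ∈ V → f z ≤ x → g z ≤ y → mk x y ∈ V := by
    intro V hV z x y hz hx hy
    have h1 : IsOpen {x | mk x (g z) ∈ V} := hV.preimage (hs1 (g z))
    have h2 : mk x (g z) ∈ V := hXu _ h1 hx (by simpa [hmk] using hz)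
    have h3 : IsOpen {y | mk x y ∈ V} := hV.preimage (hs2 x)
    exact hYo _ h3 hy h2
  have hKu : ∀ K ∈ F, ∀ z x y, z ∈ K → f z ≤ x → g z ≤ y → mk x y ∈ K := by
    intro K hKF z x y hz hx hy
    obtain ⟨S, hS, rfl⟩ := (hK K hKF).2
    intro V hV
    exact hZu V (hS V hV) z x y (hz V hV) hx hy
  obtain ⟨p, hpc, hp⟩ := point_exists hXu hXI hX hXs f hf A hAc F hne hfil
    (fun K hKF => (hK K hKF).1) hAK hmin
  obtain ⟨q, hqc, hq⟩ := point_exists hYo hYI hY hYs g hg A hAc F hne hfil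
    (fun K hKF => (hK K hKF).1) hAK hmin
  -- (p,q) is not in A
  have hpq : mk p q ∉ A := by
    intro hmem
    refine hAU hmem (hFU fun K hKF => ?_)
    obtain ⟨z, hzA, hzK⟩ := hAK K hKF
    exact hKu K hKF z p q hzK (hp z hzA) (hq z hzA)
  -- step 1
  obtain ⟨K0, hK0, h0⟩ : ∃ K0 ∈ F, ∀ z ∈ A ∩ K0, mk (f z) q ∉ A := by
    by_contra hno
    push Not at hno
    apply hpq
    have hB : IsClosed {x | mk x q ∈ A} := hAc.preimage (hs1 q)
    have hAB := hmin (f ⁻¹' {x | mk x q ∈ A}) (hB.preimage hf) (by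
      intro K hKF
      obtain ⟨z, hz, hzA⟩ := hno K hKF
      exact ⟨z, ⟨hz.1, hzA⟩, hz.2⟩)
    have : f '' A ⊆ {x | mk x q ∈ A} := by
      rintro _ ⟨z, hz, rfl⟩
      exact hAB hz
    exact closure_minimal this hB hpc
  -- step 2
  have h2 : ∀ x ∈ f '' (A ∩ K0), ∃ K ∈ F, ∀ z ∈ A ∩ K, mk x (g z) ∉ A := by
    rintro _ ⟨z0, hz0, rfl⟩
    by_contra hno
    push Not at hno
    apply h0 z0 hz0
    have hC : IsClosed {y | mk (f z0) y ∈ A} := hAc.preimage (hs2 (f z0))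
    have hAC := hmin (g ⁻¹' {y | mk (f z0) y ∈ A}) (hC.preimage hg) (by
      intro K hKF
      obtain ⟨z, hz, hzA⟩ := hno K hKF
      exact ⟨z, ⟨hz.1, hzA⟩, hz.2⟩)
    have : g '' A ⊆ {y | mk (f z0) y ∈ A} := by
      rintro _ ⟨z, hz, rfl⟩
      exact hAC hz
    exact closure_minimal this hC hqc
  -- step 3 : the sets O_K are open
  have hO : ∀ K ∈ F, IsOpen {x : X | ∀ z ∈ A ∩ K, mk x (g z) ∉ A} := by
    intro K hKF
    rw [hXo]
    constructor
    · intro x x' hxx' hx z hz hmem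
      apply hx z hz
      have hB : IsClosed {x | mk x (g z) ∈ A} := hAc.preimage (hs1 (g z))
      have := hXu _ hB.isOpen_compl
      by_contra hnot
      exact this hxx' hnot hmem
    · intro D hD hdir s hs hsO
      by_contra hno
      have hno' : ∀ d ∈ D, ∃ z ∈ A ∩ K, mk d (g z) ∈ A := by
        intro d hd
        by_contra hcon2
        push Not at hcon2
        exact hno ⟨d, hd, hcon2⟩
      have hN : IsCompact (g '' (A ∩ K)) := by
        rw [inter_comm]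
        exact ((hK K hKF).1.inter_right hAc).image hg
      have hDne : Nonempty D := hD.to_subtype
      have hint : (g '' (A ∩ K) ∩ ⋂ d : D, {y | mk (d : X) y ∈ A}).Nonempty := by
        by_contra hempty
        rw [not_nonempty_iff_eq_empty] at hempty
        obtain ⟨d, hd⟩ := hN.elim_directed_family_closed (fun d : D => {y | mk (d : X) y ∈ A})
          (fun d => hAc.preimage (hs2 d)) hempty (by
            intro d e
            obtain ⟨c, hc, hdc, hec⟩ := hdir d d.2 e e.2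
            have key : ∀ d : X, d ≤ c → {y | mk c y ∈ A} ⊆ {y | mk d y ∈ A} := by
              intro d hdc y hy
              have hB : IsClosed {x | mk x y ∈ A} := hAc.preimage (hs1 y)
              have := hXu _ hB.isOpen_compl
              by_contra hnot
              exact this hdc hnot hy
            exact ⟨⟨c, hc⟩, key d hdc, key e hec⟩)
        obtain ⟨z, hz, hzA⟩ := hno' d d.2
        have : g z ∈ g '' (A ∩ K) ∩ {y | mk (d : X) y ∈ A} := ⟨⟨z, hz, rfl⟩, hzA⟩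
        rw [hd] at this
        exact this
      obtain ⟨y, ⟨z, hz, rfl⟩, hy⟩ := hint
      apply hsO z hz
      by_contra hnot
      have hB : IsClosed {x | mk x (g z) ∈ A} := hAc.preimage (hs1 (g z))
      obtain ⟨d, hd, hdA⟩ := ((hXo _).mp hB.isOpen_compl).2 D hD hdir s hs hnot
      exact hdA (mem_iInter.mp hy ⟨d, hd⟩)
  -- step 4 : compactness
  have hM : IsCompact (f '' (A ∩ K0)) := by
    rw [inter_comm]
    exact ((hK K0 hK0).1.inter_right hAc).image hf
  have hFne : Nonempty F := hne.to_subtype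
  obtain ⟨K1, hK1⟩ := hM.elim_directed_cover (fun K : F => {x : X | ∀ z ∈ A ∩ K, mk x (g z) ∉ A})
    (fun K => hO K K.2) (by
      intro x hx
      obtain ⟨K, hKF, hx'⟩ := h2 x hx
      exact mem_iUnion.mpr ⟨⟨K, hKF⟩, hx'⟩) (by
      intro K L
      obtain ⟨M, hM, hMK, hML⟩ := hfil K K.2 L L.2
      exact ⟨⟨M, hM⟩, fun x hx z hz => hx z ⟨hz.1, hMK hz.2⟩,
        fun x hx z hz => hx z ⟨hz.1, hML hz.2⟩⟩)
  obtain ⟨M, hMF, hM0, hM1⟩ := hfil K0 hK0 K1 K1.2
  obtain ⟨z, hzA, hzM⟩ := hAK M hMF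
  have := hK1 ⟨z, ⟨hzA, hM0 hzM⟩, rfl⟩ z ⟨hzA, hM1 hzM⟩
  rw [hmk] at this
  exact this hzA

/-- **Main theorem.** If `P` and `Q` are Scott well-filtered dcpos then the Scott space of the
product dcpo `P × Q` is well-filtered. -/
theorem result (P Q : Type*) [PartialOrder P] [PartialOrder Q] (_ : IsDcpo P) (_ : IsDcpo Q)
    (hP : ScottWellFiltered P) (hQ : ScottWellFiltered Q) : ScottWellFiltered (P × Q) := by
  refine ⟨t0_scott, fun F hne hfil hK U hU hFU => ?_⟩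
  have lubfst : ∀ (D : Set (P × Q)) (s : P × Q), IsLUB D s → IsLUB (Prod.fst '' D) s.1 :=
    fun D s h => (isLUB_prod.mp h).1
  have lubsnd : ∀ (D : Set (P × Q)) (s : P × Q), IsLUB D s → IsLUB (Prod.snd '' D) s.2 :=
    fun D s h => (isLUB_prod.mp h).2
  refine @core P Q (P × Q) (scott P) (scott Q) (scott (P × Q)) _ _ (fun U => Iff.rfl)
    (fun U h => h.1) isClosed_Iic_scott isClosed_Iic_scott hP hQ
    (fun K h => saturated_scott_of_isUpperSet h) (fun K h => saturated_scott_of_isUpperSet h)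
    Prod.fst Prod.snd Prod.mk ?_ ?_ (fun _ _ => rfl) (fun _ _ => rfl) (fun _ => rfl) ?_ ?_
    F hne hfil hK U hU hFU
  · refine @Continuous.mk _ _ (scott (P × Q)) (scott P) _ fun U hU => ?_
    refine ⟨fun a b hab ha => hU.1 hab.1 ha, fun D hD hdir s hs hsU => ?_⟩
    obtain ⟨_, ⟨d, hd, rfl⟩, hdU⟩ := hU.2 (Prod.fst '' D) (hD.image _)
      (by
        rintro _ ⟨a, ha, rfl⟩ _ ⟨b, hb, rfl⟩
        obtain ⟨c, hc, hac, hbc⟩ := hdir a ha b hb
        exact ⟨c.1, ⟨c, hc, rfl⟩, hac.1, hbc.1⟩) s.1 (lubfst D s hs) hsU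
    exact ⟨d, hd, hdU⟩
  · refine @Continuous.mk _ _ (scott (P × Q)) (scott Q) _ fun U hU => ?_
    refine ⟨fun a b hab ha => hU.1 hab.2 ha, fun D hD hdir s hs hsU => ?_⟩
    obtain ⟨_, ⟨d, hd, rfl⟩, hdU⟩ := hU.2 (Prod.snd '' D) (hD.image _)
      (by
        rintro _ ⟨a, ha, rfl⟩ _ ⟨b, hb, rfl⟩
        obtain ⟨c, hc, hac, hbc⟩ := hdir a ha b hb
        exact ⟨c.2, ⟨c, hc, rfl⟩, hac.2, hbc.2⟩) s.2 (lubsnd D s hs) hsU
    exact ⟨d, hd, hdU⟩
  · intro y
    refine @Continuous.mk _ _ (scott P) (scott (P × Q)) _ fun U hU => ?_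
    refine ⟨fun a b hab ha => hU.1 (show (a, y) ≤ (b, y) from ⟨hab, le_rfl⟩) ha,
      fun D hD hdir s hs hsU => ?_⟩
    obtain ⟨_, ⟨d, hd, rfl⟩, hdU⟩ := hU.2 ((fun x => (x, y)) '' D) (hD.image _)
      (by
        rintro _ ⟨a, ha, rfl⟩ _ ⟨b, hb, rfl⟩
        obtain ⟨c, hc, hac, hbc⟩ := hdir a ha b hb
        exact ⟨(c, y), ⟨c, hc, rfl⟩, ⟨hac, le_rfl⟩, ⟨hbc, le_rfl⟩⟩) (s, y) (by
        constructor
        · rintro _ ⟨a, ha, rfl⟩
          exact ⟨hs.1 ha, le_rfl⟩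
        · intro b hb
          obtain ⟨a0, ha0⟩ := hD
          refine ⟨hs.2 fun a ha => (hb ⟨a, ha, rfl⟩).1, (hb ⟨a0, ha0, rfl⟩).2⟩) hsU
    exact ⟨d, hd, hdU⟩
  · intro x
    refine @Continuous.mk _ _ (scott Q) (scott (P × Q)) _ fun U hU => ?_
    refine ⟨fun a b hab ha => hU.1 (show (x, a) ≤ (x, b) from ⟨le_rfl, hab⟩) ha,
      fun D hD hdir s hs hsU => ?_⟩
    obtain ⟨_, ⟨d, hd, rfl⟩, hdU⟩ := hU.2 ((fun y => (x, y)) '' D) (hD.image _)
      (by
        rintro _ ⟨a, ha, rfl⟩ _ ⟨b, hb, rfl⟩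
        obtain ⟨c, hc, hac, hbc⟩ := hdir a ha b hb
        exact ⟨(x, c), ⟨c, hc, rfl⟩, ⟨le_rfl, hac⟩, ⟨le_rfl, hbc⟩⟩) (x, s) (by
        constructor
        · rintro _ ⟨a, ha, rfl⟩
          exact ⟨le_rfl, hs.1 ha⟩
        · intro b hb
          obtain ⟨a0, ha0⟩ := hD
          refine ⟨(hb ⟨a0, ha0, rfl⟩).1, hs.2 fun a ha => (hb ⟨a, ha, rfl⟩).2⟩) hsU
    exact ⟨d, hd, hdU⟩

end Pool.Agent.Results.MP_70096d_gt.ScottProduct
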